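import Mathlib

/-!
Super-lacunary series of powers of linear functionals on a complex normed space and their
derivatives up to the boundary of the unit ball.
-/

open Metric Set Filter Topology

namespace Run7.h337

/-- Exponents growing faster than any geometric rate, with room for polynomial weights. -/
theorem exists_exponents : ∃ n : ℕ → ℕ, (∀ j, 2 ≤ n j) ∧ (∀ j, (j + 1) * n j ≤ n (j + 1)) ∧
    (∀ j, ((n j : ℝ)) ^ j ≤ (1 + 1 / ((j : ℝ) + 1)) ^ (n j)) := by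
  have step : ∀ j m : ℕ, ∃ N : ℕ, (j + 1) * m ≤ N ∧ 2 ≤ N ∧
      ((N : ℝ)) ^ (j + 1) ≤ (1 + 1 / (((j + 1 : ℕ) : ℝ) + 1)) ^ N := by
    intro j m
    have hr : (1 : ℝ) < 1 + 1 / (((j + 1 : ℕ) : ℝ) + 1) := by
      have : (0 : ℝ) < 1 / (((j + 1 : ℕ) : ℝ) + 1) := by positivity
      linarith
    have h := (tendsto_pow_const_div_const_pow_of_one_lt (j + 1) hr).eventually
      (gt_mem_nhds (show (0 : ℝ) < 1 by norm_num))
    obtain ⟨N, hN⟩ := ((h.and (eventually_ge_atTop ((j + 1) * m))).and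
      (eventually_ge_atTop 2)).exists
    refine ⟨N, hN.1.2, hN.2, ?_⟩
    have hpos : (0 : ℝ) < (1 + 1 / (((j + 1 : ℕ) : ℝ) + 1)) ^ N := by positivity
    exact ((div_lt_one hpos).1 hN.1.1).le
  choose s hs1 hs2 hs3 using step
  let n : ℕ → ℕ := fun j => Nat.rec 2 (fun j m => s j m) j
  have hn0 : n 0 = 2 := rfl
  have hns : ∀ j, n (j + 1) = s j (n j) := fun j => rfl
  refine ⟨n, ?_, ?_, ?_⟩
  · intro j
    cases j with
    | zero => rw [hn0]
    | succ j => rw [hns]; exact hs2 _ _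
  · intro j; rw [hns]; exact hs1 _ _
  · intro j
    cases j with
    | zero => simp [hn0]; norm_num
    | succ j => rw [hns]; exact hs3 _ _

variable {E : Type*} [NormedAddCommGroup E] [NormedSpace ℂ E]

theorem norm_iteratedFDeriv_pow_le (L : E →L[ℂ] ℂ) (hL : ‖L‖ ≤ 1) (c : ℂ) (N k : ℕ) {z : E}
    (hz : ‖z‖ ≤ 1) :
    ‖iteratedFDeriv ℂ k (fun w => c * (L w) ^ N) z‖ ≤ ‖c‖ * (N : ℝ) ^ k := by
  have h1 : (fun w => c * (L w) ^ N) = c • (fun w => (L w) ^ N) := by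
    funext w; simp
  have hcd : ContDiff ℂ k (fun w => (L w) ^ N) := L.contDiff.pow N
  rw [h1, iteratedFDeriv_const_smul_apply hcd.contDiffAt, norm_smul]
  refine mul_le_mul_of_nonneg_left ?_ (norm_nonneg _)
  have h2 : (fun w => (L w) ^ N) = (fun x : ℂ => x ^ N) ∘ L := rfl
  have hcd2 : ContDiff ℂ k (fun x : ℂ => x ^ N) := contDiff_id.pow N
  rw [h2, L.iteratedFDeriv_comp_right hcd2 z le_rfl]
  refine (ContinuousMultilinearMap.norm_compContinuousLinearMap_le _ _).trans ?_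
  rw [norm_iteratedFDeriv_eq_norm_iteratedDeriv]
  have hprod : ∏ _i : Fin k, ‖L‖ ≤ 1 := by
    rw [Finset.prod_const]
    exact pow_le_one₀ (norm_nonneg _) hL
  have hLz : ‖L z‖ ≤ 1 := by
    calc ‖L z‖ ≤ ‖L‖ * ‖z‖ := L.le_opNorm z
      _ ≤ 1 * 1 := by gcongr
      _ = 1 := one_mul 1
  have hder : ‖iteratedDeriv k (fun x : ℂ => x ^ N) (L z)‖ ≤ (N : ℝ) ^ k := by
    rw [iteratedDeriv_pow, norm_mul, norm_pow]
    have h3 : ‖((N.descFactorial k : ℕ) : ℂ)‖ ≤ (N : ℝ) ^ k := by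
      rw [Complex.norm_natCast]
      exact_mod_cast Nat.descFactorial_le_pow N k
    calc ‖((N.descFactorial k : ℕ) : ℂ)‖ * ‖L z‖ ^ (N - k) ≤ (N : ℝ) ^ k * 1 := by
          gcongr
          exact pow_le_one₀ (norm_nonneg _) hLz
      _ = (N : ℝ) ^ k := mul_one _
  calc ‖iteratedDeriv k (fun x : ℂ => x ^ N) (L z)‖ * ∏ _i : Fin k, ‖L‖
      ≤ (N : ℝ) ^ k * 1 := by
        gcongr
    _ = (N : ℝ) ^ k := mul_one _

/-- weights -/
noncomputable def wt (n : ℕ → ℕ) (j : ℕ) : ℂ := (((n j : ℂ)) ^ j)⁻¹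

theorem norm_wt (n : ℕ → ℕ) (j : ℕ) : ‖wt n j‖ = ((n j : ℝ) ^ j)⁻¹ := by
  simp [wt]

theorem summable_wt_pow {n : ℕ → ℕ} (hn : ∀ j, 2 ≤ n j) (k : ℕ) :
    Summable (fun j => ‖wt n j‖ * (n j : ℝ) ^ k) := by
  have hg : Summable (fun j : ℕ => (2 : ℝ) ^ k * (1 / 2) ^ j) :=
    (summable_geometric_of_lt_one (by norm_num) (by norm_num)).mul_left _
  refine Summable.of_norm_bounded_eventually_nat hg ?_
  filter_upwards [eventually_ge_atTop k] with j hj
  rw [norm_wt, Real.norm_of_nonneg (by positivity)]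
  have hn2 : (2 : ℝ) ≤ n j := by exact_mod_cast hn j
  have hnpos : (0 : ℝ) < n j := by linarith
  obtain ⟨t, rfl⟩ := Nat.exists_eq_add_of_le hj
  have h1 : ((n (k + t) : ℝ) ^ (k + t))⁻¹ * (n (k + t) : ℝ) ^ k = ((n (k + t) : ℝ) ^ t)⁻¹ := by
    rw [pow_add]; field_simp
  have h2 : (2 : ℝ) ^ k * (1 / 2) ^ (k + t) = (1 / 2) ^ t := by
    rw [pow_add, ← mul_assoc, ← mul_pow]; norm_num
  rw [h1, h2, one_div, inv_pow]
  gcongr

/-- the terms of the series -/
noncomputable def term (n : ℕ → ℕ) (L : ℕ → E →L[ℂ] ℂ) (j : ℕ) (z : E) : ℂ :=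
  wt n j * (L j z) ^ (n j)

/-- the sum -/
noncomputable def fsum (n : ℕ → ℕ) (L : ℕ → E →L[ℂ] ℂ) (z : E) : ℂ := ∑' j, term n L j z

theorem term_contDiff (n : ℕ → ℕ) (L : ℕ → E →L[ℂ] ℂ) (j : ℕ) {N : WithTop ℕ∞} :
    ContDiff ℂ N (term n L j) := by
  unfold term
  exact contDiff_const.mul ((L j).contDiff.pow _)

theorem norm_iteratedFDeriv_term_le (n : ℕ → ℕ) (L : ℕ → E →L[ℂ] ℂ) (hL : ∀ j, ‖L j‖ ≤ 1)
    (k j : ℕ) {z : E} (hz : ‖z‖ ≤ 1) :
    ‖iteratedFDeriv ℂ k (term n L j) z‖ ≤ ‖wt n j‖ * (n j : ℝ) ^ k :=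
  norm_iteratedFDeriv_pow_le (L j) (hL j) _ _ _ hz

theorem norm_term_le (n : ℕ → ℕ) (L : ℕ → E →L[ℂ] ℂ) (hL : ∀ j, ‖L j‖ ≤ 1) (j : ℕ) (z : E) :
    ‖term n L j z‖ ≤ ‖wt n j‖ * ‖z‖ ^ (n j) := by
  unfold term
  rw [norm_mul, norm_pow]
  gcongr
  calc ‖L j z‖ ≤ ‖L j‖ * ‖z‖ := (L j).le_opNorm z
    _ ≤ 1 * ‖z‖ := by gcongr; exact hL j
    _ = ‖z‖ := one_mul _

theorem summable_term {n : ℕ → ℕ} (hn : ∀ j, 2 ≤ n j) (L : ℕ → E →L[ℂ] ℂ)
    (hL : ∀ j, ‖L j‖ ≤ 1) {z : E} (hz : ‖z‖ ≤ 1) : Summable (fun j => term n L j z) := by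
  refine Summable.of_norm_bounded (summable_wt_pow hn 0) (fun j => ?_)
  refine (norm_term_le n L hL j z).trans ?_
  rw [pow_zero]
  gcongr
  exact pow_le_one₀ (norm_nonneg _) hz

/-- On the open unit ball the iterated derivatives of the sum are the sums of the
iterated derivatives. -/
theorem iteratedFDeriv_fsum {n : ℕ → ℕ} (hn : ∀ j, 2 ≤ n j) (L : ℕ → E →L[ℂ] ℂ)
    (hL : ∀ j, ‖L j‖ ≤ 1) (k : ℕ) : ∀ z ∈ ball (0 : E) 1,
      iteratedFDeriv ℂ k (fsum n L) z = ∑' j, iteratedFDeriv ℂ k (term n L j) z := by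
  induction k with
  | zero =>
    intro z hz
    simp_rw [iteratedFDeriv_zero_eq_comp]
    exact (continuousMultilinearCurryFin0 ℂ E ℂ).symm.toContinuousLinearEquiv.map_tsum
  | succ k IH =>
    intro z hz
    have hball : ∀ w ∈ ball (0 : E) 1, ‖w‖ ≤ 1 := fun w hw => by
      rw [mem_ball_zero_iff] at hw; exact hw.le
    have hev : iteratedFDeriv ℂ k (fsum n L) =ᶠ[𝓝 z]
        fun w => ∑' j, iteratedFDeriv ℂ k (term n L j) w := by
      filter_upwards [isOpen_ball.mem_nhds hz] with w hw using IH w hw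
    have hsum0 : Summable (fun j => iteratedFDeriv ℂ k (term n L j) z) :=
      Summable.of_norm_bounded (summable_wt_pow hn k)
        (fun j => norm_iteratedFDeriv_term_le n L hL k j (hball z hz))
    have hderiv : HasFDerivAt (fun w => ∑' j, iteratedFDeriv ℂ k (term n L j) w)
        (∑' j, fderiv ℂ (iteratedFDeriv ℂ k (term n L j)) z) z := by
      refine hasFDerivAt_tsum_of_isPreconnected (u := fun j => ‖wt n j‖ * (n j : ℝ) ^ (k + 1))
        (summable_wt_pow hn (k + 1)) isOpen_ball (convex_ball (0 : E) 1).isPreconnected ?_ ?_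
        hz hsum0 hz
      · intro j w _
        exact ((term_contDiff n L j (N := ((k + 1 : ℕ) : ℕ∞))).differentiable_iteratedFDeriv
          (by exact_mod_cast Nat.lt_succ_self k)).differentiableAt.hasFDerivAt
      · intro j w hw
        rw [fderiv_iteratedFDeriv, Function.comp_apply, LinearIsometryEquiv.norm_map]
        exact norm_iteratedFDeriv_term_le n L hL (k + 1) j (hball w hw)
    rw [iteratedFDeriv_succ_eq_comp_left, Function.comp_apply, hev.fderiv_eq, hderiv.fderiv]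
    simp_rw [iteratedFDeriv_succ_eq_comp_left, Function.comp_apply]
    exact (continuousMultilinearCurryLeftEquiv ℂ
        (fun _ : Fin (k + 1) => E) ℂ).symm.toContinuousLinearEquiv.map_tsum

/-- The candidate extension of the k-th derivative is continuous on the closed ball. -/
theorem continuousOn_tsum_iteratedFDeriv {n : ℕ → ℕ} (hn : ∀ j, 2 ≤ n j) (L : ℕ → E →L[ℂ] ℂ)
    (hL : ∀ j, ‖L j‖ ≤ 1) (k : ℕ) :
    ContinuousOn (fun z => ∑' j, iteratedFDeriv ℂ k (term n L j) z) (closedBall (0 : E) 1) := by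
  refine continuousOn_tsum (u := fun j => ‖wt n j‖ * (n j : ℝ) ^ k) ?_ (summable_wt_pow hn k) ?_
  · intro j
    exact ((term_contDiff n L j (N := (k : ℕ∞))).continuous_iteratedFDeriv le_rfl).continuousOn
  · intro j z hz
    exact norm_iteratedFDeriv_term_le n L hL k j (by simpa using hz)

theorem differentiableOn_fsum {n : ℕ → ℕ} (hn : ∀ j, 2 ≤ n j) (L : ℕ → E →L[ℂ] ℂ)
    (hL : ∀ j, ‖L j‖ ≤ 1) : DifferentiableOn ℂ (fsum n L) (ball (0 : E) 1) := by
  intro z hz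
  have hball : ∀ w ∈ ball (0 : E) 1, ‖w‖ ≤ 1 := fun w hw => by
    rw [mem_ball_zero_iff] at hw; exact hw.le
  have hderiv : HasFDerivAt (fun w => ∑' j, term n L j w)
      (∑' j, fderiv ℂ (term n L j) z) z := by
    refine hasFDerivAt_tsum_of_isPreconnected (u := fun j => ‖wt n j‖ * (n j : ℝ) ^ 1)
      (summable_wt_pow hn 1) isOpen_ball (convex_ball (0 : E) 1).isPreconnected ?_ ?_
      hz (summable_term hn L hL (hball z hz)) hz
    · intro j w _
      exact ((term_contDiff n L j (N := 1)).differentiable (by norm_num)).differentiableAt.hasFDerivAt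
    · intro j w hw
      have := norm_iteratedFDeriv_term_le n L hL 1 j (hball w hw)
      rwa [norm_iteratedFDeriv_one] at this
  exact hderiv.differentiableAt.differentiableWithinAt

end Run7.h337
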