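import Pool.Agent.Run7.h337.NBInterp

/-!
Propagation of super-geometric smallness along a connected open set.
-/

open Metric Set Filter Topology

namespace Run7.h337

/-- `F J` is super-geometrically small (at rate `n J`) near `z`. -/
def Small (F : ℕ → ℂ → ℂ) (n : ℕ → ℕ) (z : ℂ) : Prop :=
  ∃ r > 0, ∀ B : ℕ, ∀ᶠ J in atTop, ∀ w ∈ ball z r, ‖F J w‖ * (B : ℝ) ^ (n J) ≤ 1

theorem isOpen_small (F : ℕ → ℂ → ℂ) (n : ℕ → ℕ) : IsOpen {z | Small F n z} := by
  rw [Metric.isOpen_iff]
  rintro z ⟨r, hr, h⟩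
  refine ⟨r / 2, by positivity, fun w hw => ⟨r / 2, by positivity, fun B => ?_⟩⟩
  filter_upwards [h B] with J hJ x hx
  apply hJ
  rw [mem_ball] at hw hx ⊢
  calc dist x z ≤ dist x w + dist w z := dist_triangle _ _ _
    _ < r / 2 + r / 2 := add_lt_add hx hw
    _ = r := by ring

theorem small_propagate {F : ℕ → ℂ → ℂ} {n : ℕ → ℕ} {W : Set ℂ} (hW : IsOpen W)
    (hWc : IsPreconnected W) (hn1 : ∀ J, 1 ≤ n J) (hF : ∀ J, DifferentiableOn ℂ (F J) W)
    (hbd : ∀ z ρ, closedBall z ρ ⊆ W → ∃ D : ℕ, ∀ J, ∀ w ∈ closedBall z ρ, ‖F J w‖ ≤ (D : ℝ) ^ (n J))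
    (h0 : ∃ z ∈ W, Small F n z) : ∀ z ∈ W, Small F n z := by
  have key : W ⊆ {z | Small F n z} := by
    refine hWc.subset_of_closure_inter_subset (isOpen_small F n) ?_ ?_
    · obtain ⟨z, hz, hs⟩ := h0
      exact ⟨z, hz, hs⟩
    · rintro z0 ⟨hz0, hz0W⟩
      obtain ⟨e, he, heW⟩ := Metric.isOpen_iff.1 hW z0 hz0W
      set ρ : ℝ := e / 8 with hρdef
      have hρ : 0 < ρ := by positivity
      have hcb : closedBall z0 (4 * ρ) ⊆ W := by
        refine (closedBall_subset_ball ?_).trans heW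
        rw [hρdef]; linarith
      obtain ⟨D, hD⟩ := hbd z0 (4 * ρ) hcb
      obtain ⟨p, hp, hpz⟩ := Metric.mem_closure_iff.1 hz0 (ρ / 2) (by positivity)
      obtain ⟨r0, hr0, hsm⟩ := hp
      set r : ℝ := min (r0 / 2) ρ with hrdef
      have hr : 0 < r := lt_min (by positivity) hρ
      have hrρ : r ≤ ρ := min_le_right _ _
      have hrr0 : r < r0 := lt_of_le_of_lt (min_le_left _ _) (by linarith)
      set Lr : ℝ := ρ / r with hLr
      have hLr1 : 1 ≤ Lr := by rw [hLr, le_div_iff₀ hr]; linarith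
      have hdist : dist p z0 < ρ / 2 := by rw [dist_comm]; exact hpz
      have hpsub : closedBall p (2 * ρ) ⊆ closedBall z0 (4 * ρ) := by
        intro x hx
        rw [mem_closedBall] at hx ⊢
        calc dist x z0 ≤ dist x p + dist p z0 := dist_triangle _ _ _
          _ ≤ 2 * ρ + ρ / 2 := by linarith
          _ ≤ 4 * ρ := by linarith
      refine ⟨ρ / 2, by positivity, fun B => ?_⟩
      obtain ⟨κ, hκ⟩ := pow_unbounded_of_one_lt (4 * (D : ℝ) * B) (show (1 : ℝ) < 2 by norm_num)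
      obtain ⟨B', hB'⟩ := exists_nat_ge (4 * ((κ : ℝ) + 1) * Lr ^ κ * ((B : ℝ) + 1))
      have hB'pos : (0 : ℝ) < B' := lt_of_lt_of_le (by positivity) hB'
      filter_upwards [hsm B'] with J hJ μ hμ
      set N := n J with hN
      have hN1 : 1 ≤ N := hn1 J
      have hμp : ‖μ - p‖ ≤ ρ := by
        rw [← dist_eq_norm]
        have h1 : dist μ z0 < ρ / 2 := hμ
        have h2 : dist z0 p < ρ / 2 := hpz
        calc dist μ p ≤ dist μ z0 + dist z0 p := dist_triangle _ _ _
          _ ≤ ρ := by linarith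
      have hdiff : DiffContOnCl ℂ (F J) (ball p (2 * ρ)) := by
        apply DifferentiableOn.diffContOnCl
        refine (hF J).mono ?_
        exact (closure_ball_subset_closedBall.trans hpsub).trans hcb
      have hA : ∀ z ∈ sphere p (2 * ρ), ‖F J z‖ ≤ (D : ℝ) ^ N := fun z hz =>
        hD J z (hpsub (sphere_subset_closedBall hz))
      have hε : ∀ z ∈ sphere p r, ‖F J z‖ ≤ 1 / (B' : ℝ) ^ N := by
        intro z hz
        rw [le_div_iff₀ (by positivity)]
        apply hJ
        rw [mem_ball, mem_sphere.1 hz]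
        exact hrr0
      have hmain := interp hr hrρ hdiff hA hε hμp (κ * N)
      have hBN : (0 : ℝ) ≤ (B : ℝ) ^ N := by positivity
      have hpart1 : 1 / (B' : ℝ) ^ N * ((κ * N : ℕ) : ℝ) * (ρ / r) ^ (κ * N) * (B : ℝ) ^ N
          ≤ 1 / 4 := by
        have e1 : 1 / (B' : ℝ) ^ N * ((κ * N : ℕ) : ℝ) * (ρ / r) ^ (κ * N) * (B : ℝ) ^ N
            = (κ * N) * (Lr ^ κ * B / B') ^ N := by
          have e0 : (Lr ^ κ * (B : ℝ) / B') ^ N = (Lr ^ κ) ^ N * (B : ℝ) ^ N / (B' : ℝ) ^ N := by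
            rw [div_pow, mul_pow]
          rw [e0, ← hLr, pow_mul, Nat.cast_mul]
          field_simp
        have e2 : Lr ^ κ * B / B' ≤ 1 / (4 * ((κ : ℝ) + 1)) := by
          rw [div_le_div_iff₀ hB'pos (by positivity)]
          have : Lr ^ κ * (B : ℝ) ≤ Lr ^ κ * ((B : ℝ) + 1) := by gcongr; linarith
          nlinarith [hB', this]
        have e3 : (0 : ℝ) ≤ Lr ^ κ * B / B' := by positivity
        rw [e1]
        calc ((κ : ℝ) * N) * (Lr ^ κ * B / B') ^ N
            ≤ (κ * N) * (1 / (4 * ((κ : ℝ) + 1))) ^ N := by gcongr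
          _ = (κ / ((κ : ℝ) + 1) ^ N) * (N / 4 ^ N) := by
              rw [div_pow, one_pow, mul_pow]; field_simp
          _ ≤ 1 * (1 / 4) := by
              have a1 : (κ : ℝ) / ((κ : ℝ) + 1) ^ N ≤ 1 := by
                rw [div_le_one (by positivity)]
                calc (κ : ℝ) ≤ (κ : ℝ) + 1 := by linarith
                  _ = ((κ : ℝ) + 1) ^ 1 := (pow_one _).symm
                  _ ≤ ((κ : ℝ) + 1) ^ N := by
                      apply pow_le_pow_right₀ _ hN1
                      have : (0 : ℝ) ≤ κ := Nat.cast_nonneg _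
                      linarith
              have a2 : (N : ℝ) / 4 ^ N ≤ 1 / 4 := by
                rw [div_le_div_iff₀ (by positivity) (by norm_num)]
                obtain ⟨m, hm⟩ : ∃ m, N = m + 1 := ⟨N - 1, by omega⟩
                rw [hm]
                have hm4 : ((m : ℝ) + 1) ≤ 4 ^ m := by
                  have h1 : m + 1 ≤ 2 ^ m := Nat.lt_two_pow_self
                  have h2 : ((m : ℝ) + 1) ≤ 2 ^ m := by exact_mod_cast h1
                  calc ((m : ℝ) + 1) ≤ 2 ^ m := h2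
                    _ ≤ 4 ^ m := by gcongr; norm_num
                push_cast
                rw [pow_succ]
                linarith
              gcongr
          _ = 1 / 4 := one_mul _
      have hpart2 : 2 * (D : ℝ) ^ N * (1 / 2) ^ (κ * N) * (B : ℝ) ^ N ≤ 1 / 2 := by
        have e1 : 2 * (D : ℝ) ^ N * (1 / 2) ^ (κ * N) * (B : ℝ) ^ N
            = 2 * ((D * B) / 2 ^ κ) ^ N := by
          have e0 : (((D : ℝ) * B) / 2 ^ κ) ^ N = (D : ℝ) ^ N * (B : ℝ) ^ N / (2 ^ κ) ^ N := by
            rw [div_pow, mul_pow]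
          have e00 : ((1 / 2 : ℝ)) ^ (κ * N) = 1 / (2 ^ κ) ^ N := by
            rw [pow_mul, div_pow, one_pow, div_pow, one_pow]
          rw [e0, e00]
          field_simp
        have e2 : ((D : ℝ) * B) / 2 ^ κ ≤ 1 / 4 := by
          rw [div_le_div_iff₀ (by positivity) (by norm_num)]
          linarith
        rw [e1]
        calc 2 * (((D : ℝ) * B) / 2 ^ κ) ^ N ≤ 2 * (1 / 4) ^ N := by gcongr
          _ ≤ 2 * (1 / 4) ^ 1 := by
              gcongr 2 * ?_
              exact pow_le_pow_of_le_one (by norm_num) (by norm_num) hN1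
          _ = 1 / 2 := by norm_num
      calc ‖F J μ‖ * (B : ℝ) ^ N
          ≤ (1 / (B' : ℝ) ^ N * ((κ * N : ℕ) : ℝ) * (ρ / r) ^ (κ * N)
              + 2 * (D : ℝ) ^ N * (1 / 2) ^ (κ * N)) * (B : ℝ) ^ N := by
            gcongr
        _ ≤ 1 / 4 + 1 / 2 := by rw [add_mul]; exact add_le_add hpart1 hpart2
        _ ≤ 1 := by norm_num
  exact fun z hz => key hz

end Run7.h337
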