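import Pool.Agent.Run7.h337.NBInterp
import Pool.Agent.Run7.h337.NBSeries
import Pool.Agent.Run7.h337.NBSmall

/-!
A function of class `A^∞` on the unit ball that cannot be continued along any analytic disc
leaving the closed ball.
-/

open Metric Set Filter Topology

namespace Run7.h337

section Hilbert

variable {E : Type*} [NormedAddCommGroup E] [InnerProductSpace ℂ E]

/-- A sequence of functionals of norm at most one that detects, infinitely often, every point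
outside the closed unit ball. -/
theorem exists_functionals [TopologicalSpace.SeparableSpace E] :
    ∃ L : ℕ → E →L[ℂ] ℂ, (∀ j, ‖L j‖ ≤ 1) ∧
      ∀ z : E, 1 < ‖z‖ → ∃ η > 0, ∀ J0 : ℕ, ∃ j ≥ J0, 1 + η ≤ ‖L j z‖ := by
  classical
  let v := TopologicalSpace.denseSeq E
  have hv : DenseRange v := TopologicalSpace.denseRange_denseSeq E
  let u : ℕ → E := fun i => if ‖v i‖ ≤ 1 then v i else 0
  have hu : ∀ i, ‖u i‖ ≤ 1 := by
    intro i
    by_cases h : ‖v i‖ ≤ 1
    · simp only [u, if_pos h]; exact h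
    · simp [u, if_neg h]
  refine ⟨fun j => innerSL ℂ (u (Nat.unpair j).1), ?_, ?_⟩
  · intro j
    rw [innerSL_apply_norm]
    exact hu _
  · intro z hz
    have hz0 : 0 < ‖z‖ := by linarith
    set η : ℝ := (‖z‖ - 1) / 2 with hη
    have hηpos : 0 < η := by rw [hη]; linarith
    set t : ℝ := ((1 + η) / ‖z‖ + 1) / 2 with ht
    have hq : (1 + η) / ‖z‖ < 1 := by rw [div_lt_one hz0, hη]; linarith
    have ht1 : t < 1 := by rw [ht]; linarith
    have ht2 : (1 + η) / ‖z‖ < t := by rw [ht]; linarith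
    have ht0 : 0 < t := lt_trans (by positivity) ht2
    have ht3 : 1 + η < t * ‖z‖ := by rwa [div_lt_iff₀ hz0] at ht2
    let O : Set E := {w | ‖w‖ < 1 ∧ 1 + η < ‖inner ℂ w z‖}
    have hO : IsOpen O := by
      apply IsOpen.and
      · exact isOpen_lt continuous_norm continuous_const
      · exact isOpen_lt continuous_const
          (continuous_norm.comp (Continuous.inner continuous_id continuous_const))
    have hne : O.Nonempty := by
      refine ⟨((t / ‖z‖ : ℝ) : ℂ) • z, ?_, ?_⟩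
      · rw [norm_smul, Complex.norm_real, Real.norm_of_nonneg (by positivity),
          div_mul_cancel₀ _ hz0.ne']
        exact ht1
      · rw [inner_smul_left, inner_self_eq_norm_sq_to_K, norm_mul]
        simp only [Complex.conj_ofReal, Complex.norm_real, norm_pow, RCLike.norm_ofReal]
        rw [Real.norm_of_nonneg (by positivity)]
        rw [abs_norm]
        have : t / ‖z‖ * ‖z‖ ^ 2 = t * ‖z‖ := by field_simp
        rw [this]
        exact ht3
    obtain ⟨i, hi⟩ := hv.exists_mem_open hO hne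
    refine ⟨η, hηpos, fun J0 => ⟨Nat.pair i J0, Nat.right_le_pair i J0, ?_⟩⟩
    have hui : u i = v i := by
      simp only [u]
      rw [if_pos hi.1.le]
    simp only [Nat.unpair_pair, hui, innerSL_apply_apply]
    exact hi.2.le

end Hilbert

variable {E : Type*} [NormedAddCommGroup E] [NormedSpace ℂ E]

/-- partial sums -/
noncomputable def psum (n : ℕ → ℕ) (L : ℕ → E →L[ℂ] ℂ) (J : ℕ) (z : E) : ℂ :=
  ∑ j ∈ Finset.range (J + 1), term n L j z

theorem differentiable_psum (n : ℕ → ℕ) (L : ℕ → E →L[ℂ] ℂ) (J : ℕ) :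
    Differentiable ℂ (psum n L J) := by
  unfold psum
  apply Differentiable.fun_sum
  intro j _
  exact (term_contDiff n L j (N := 1)).differentiable (by norm_num)

theorem mono_of_step {n : ℕ → ℕ} (hn2 : ∀ j, (j + 1) * n j ≤ n (j + 1)) : Monotone n := by
  apply monotone_nat_of_le_succ
  intro j
  calc n j = 1 * n j := (one_mul _).symm
    _ ≤ (j + 1) * n j := Nat.mul_le_mul_right _ (by omega)
    _ ≤ n (j + 1) := hn2 j

theorem norm_psum_le {n : ℕ → ℕ} (hn : ∀ j, 2 ≤ n j) (hmono : Monotone n) (L : ℕ → E →L[ℂ] ℂ)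
    (hL : ∀ j, ‖L j‖ ≤ 1) (J : ℕ) {z : E} {Q : ℝ} (hQ : 1 ≤ Q) (hz : ‖z‖ ≤ Q) :
    ‖psum n L J z‖ ≤ (∑' j, ‖wt n j‖) * Q ^ (n J) := by
  have hsw : Summable (fun j => ‖wt n j‖) := by simpa using summable_wt_pow hn 0
  unfold psum
  calc ‖∑ j ∈ Finset.range (J + 1), term n L j z‖
      ≤ ∑ j ∈ Finset.range (J + 1), ‖term n L j z‖ := norm_sum_le _ _
    _ ≤ ∑ j ∈ Finset.range (J + 1), ‖wt n j‖ * Q ^ (n J) := by
        apply Finset.sum_le_sum
        intro j hj
        have hjJ : j ≤ J := by have := Finset.mem_range.1 hj; omega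
        refine (norm_term_le n L hL j z).trans ?_
        gcongr
        calc ‖z‖ ^ n j ≤ Q ^ n j := by gcongr
          _ ≤ Q ^ n J := pow_le_pow_right₀ hQ (hmono hjJ)
    _ = (∑ j ∈ Finset.range (J + 1), ‖wt n j‖) * Q ^ (n J) := by rw [Finset.sum_mul]
    _ ≤ (∑' j, ‖wt n j‖) * Q ^ (n J) := by
        gcongr
        exact hsw.sum_le_tsum _ (fun _ _ => norm_nonneg _)

theorem norm_fsum_sub_psum_le {n : ℕ → ℕ} (hn : ∀ j, 2 ≤ n j) (hmono : Monotone n)
    (L : ℕ → E →L[ℂ] ℂ) (hL : ∀ j, ‖L j‖ ≤ 1) (J : ℕ) {z : E} {q : ℝ} (hq : q ≤ 1)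
    (hz : ‖z‖ ≤ q) :
    ‖fsum n L z - psum n L J z‖ ≤ (∑' j, ‖wt n j‖) * q ^ (n (J + 1)) := by
  have hsw : Summable (fun j => ‖wt n j‖) := by simpa using summable_wt_pow hn 0
  have hs := summable_term hn L hL (hz.trans hq)
  have hq0 : 0 ≤ q := (norm_nonneg z).trans hz
  have hsplit := hs.sum_add_tsum_nat_add (J + 1)
  have heq : fsum n L z - psum n L J z = ∑' j, term n L (j + (J + 1)) z := by
    unfold fsum psum
    rw [← hsplit]; ring
  rw [heq]
  have hsw' : Summable (fun j => ‖wt n (j + (J + 1))‖ * q ^ (n (J + 1))) :=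
    ((summable_nat_add_iff (J + 1)).2 hsw).mul_right _
  calc ‖∑' j, term n L (j + (J + 1)) z‖ ≤ ∑' j, ‖wt n (j + (J + 1))‖ * q ^ (n (J + 1)) := by
        refine tsum_of_norm_bounded hsw'.hasSum (fun j => ?_)
        refine (norm_term_le n L hL _ z).trans ?_
        gcongr
        calc ‖z‖ ^ n (j + (J + 1)) ≤ q ^ n (j + (J + 1)) := by gcongr
          _ ≤ q ^ n (J + 1) := pow_le_pow_of_le_one hq0 hq (hmono (by omega))
    _ = (∑' j, ‖wt n (j + (J + 1))‖) * q ^ (n (J + 1)) := tsum_mul_right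
    _ ≤ (∑' j, ‖wt n j‖) * q ^ (n (J + 1)) := by
        have := hsw.sum_add_tsum_nat_add (J + 1)
        have h0 : 0 ≤ ∑ j ∈ Finset.range (J + 1), ‖wt n j‖ :=
          Finset.sum_nonneg (fun _ _ => norm_nonneg _)
        exact mul_le_mul_of_nonneg_right (by linarith) (pow_nonneg hq0 _)

/-- **Non-continuability.** If `h` is holomorphic on a connected open set `W`, `Φ` is a holomorphic
map on `W`, and `h = f ∘ Φ` on a nonempty open piece of `W` which `Φ` maps into the open ball,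
then `Φ` maps all of `W` into the closed ball. -/
theorem noncontinuable {n : ℕ → ℕ} (hn : ∀ j, 2 ≤ n j) (hn2 : ∀ j, (j + 1) * n j ≤ n (j + 1))
    (hn3 : ∀ j, ((n j : ℝ)) ^ j ≤ (1 + 1 / ((j : ℝ) + 1)) ^ (n j))
    (L : ℕ → E →L[ℂ] ℂ) (hL : ∀ j, ‖L j‖ ≤ 1)
    (hdet : ∀ z : E, 1 < ‖z‖ → ∃ η > 0, ∀ J0 : ℕ, ∃ j ≥ J0, 1 + η ≤ ‖L j z‖)
    {W V : Set ℂ} (hW : IsOpen W) (hWc : IsPreconnected W) {Φ : ℂ → E}
    (hΦ : DifferentiableOn ℂ Φ W) {h : ℂ → ℂ} (hh : DifferentiableOn ℂ h W)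
    (hV : IsOpen V) (hVne : V.Nonempty) (hVW : V ⊆ W) (hVΦ : ∀ w ∈ V, ‖Φ w‖ < 1)
    (hVh : ∀ w ∈ V, h w = fsum n L (Φ w)) : ∀ w ∈ W, ‖Φ w‖ ≤ 1 := by
  have hmono := mono_of_step hn2
  have hsw : Summable (fun j => ‖wt n j‖) := by simpa using summable_wt_pow hn 0
  set C0 : ℝ := ∑' j, ‖wt n j‖ with hC0
  have hC0nn : 0 ≤ C0 := tsum_nonneg (fun _ => norm_nonneg _)
  let F : ℕ → ℂ → ℂ := fun J w => h w - psum n L J (Φ w)
  have hF : ∀ J, DifferentiableOn ℂ (F J) W := fun J =>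
    hh.sub ((differentiable_psum n L J).comp_differentiableOn hΦ)
  have hbd : ∀ z ρ, closedBall z ρ ⊆ W →
      ∃ D : ℕ, ∀ J, ∀ w ∈ closedBall z ρ, ‖F J w‖ ≤ (D : ℝ) ^ (n J) := by
    intro z ρ hsub
    obtain ⟨M, hM⟩ := (isCompact_closedBall z ρ).exists_bound_of_continuousOn
      (hh.continuousOn.mono hsub)
    obtain ⟨Q, hQ⟩ := (isCompact_closedBall z ρ).exists_bound_of_continuousOn
      (hΦ.continuousOn.mono hsub)
    set Q' : ℝ := max Q 1 with hQ'
    have hQ'1 : 1 ≤ Q' := le_max_right _ _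
    set M' : ℝ := max M 0 with hM'
    have hM'0 : 0 ≤ M' := le_max_right _ _
    obtain ⟨D, hD⟩ := exists_nat_ge ((M' + C0 + 1) * Q')
    refine ⟨D, fun J w hw => ?_⟩
    have hN1 : 1 ≤ n J := le_trans (by norm_num) (hn J)
    have h1 : ‖h w‖ ≤ M' := (hM w hw).trans (le_max_left _ _)
    have h2 : ‖psum n L J (Φ w)‖ ≤ C0 * Q' ^ (n J) :=
      norm_psum_le hn hmono L hL J hQ'1 ((hQ w hw).trans (le_max_left _ _))
    have hQpow : 1 ≤ Q' ^ (n J) := one_le_pow₀ hQ'1
    calc ‖F J w‖ ≤ ‖h w‖ + ‖psum n L J (Φ w)‖ := norm_sub_le _ _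
      _ ≤ M' + C0 * Q' ^ (n J) := add_le_add h1 h2
      _ ≤ M' * Q' ^ (n J) + C0 * Q' ^ (n J) := by
          gcongr
          exact le_mul_of_one_le_right hM'0 hQpow
      _ = (M' + C0) * Q' ^ (n J) := by ring
      _ ≤ (M' + C0 + 1) ^ (n J) * Q' ^ (n J) := by
          gcongr
          calc M' + C0 ≤ (M' + C0 + 1) ^ 1 := by rw [pow_one]; linarith
            _ ≤ (M' + C0 + 1) ^ (n J) := pow_le_pow_right₀ (by linarith) hN1
      _ = ((M' + C0 + 1) * Q') ^ (n J) := by rw [mul_pow]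
      _ ≤ (D : ℝ) ^ (n J) := by gcongr
  have hsmall0 : ∃ z ∈ W, Small F n z := by
    obtain ⟨v, hv⟩ := hVne
    obtain ⟨e, he, heV⟩ := Metric.isOpen_iff.1 hV v hv
    have hcb : closedBall v (e / 2) ⊆ V := (closedBall_subset_ball (by linarith)).trans heV
    have hcont : ContinuousOn (fun w => ‖Φ w‖) (closedBall v (e / 2)) :=
      (hΦ.continuousOn.mono (hcb.trans hVW)).norm
    obtain ⟨w0, hw0, hmax⟩ := (isCompact_closedBall v (e / 2)).exists_isMaxOn
      ⟨v, mem_closedBall_self (by positivity)⟩ hcont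
    set q : ℝ := ‖Φ w0‖ with hq
    have hq1 : q < 1 := hVΦ w0 (hcb hw0)
    have hq0 : 0 ≤ q := norm_nonneg _
    refine ⟨v, hVW hv, e / 2, by positivity, fun B => ?_⟩
    have ht : Tendsto (fun J : ℕ => q ^ (J + 1) * B) atTop (𝓝 0) := by
      have := ((tendsto_pow_atTop_nhds_zero_of_lt_one hq0 hq1).comp (tendsto_add_atTop_nat 1)).mul_const
        (B : ℝ)
      simpa using this
    have hnJ : Tendsto (fun J => (1 / 2 : ℝ) ^ (n J)) atTop (𝓝 0) := by
      refine (tendsto_pow_atTop_nhds_zero_of_lt_one (by norm_num) (by norm_num)).comp ?_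
      refine tendsto_atTop_mono (fun J => ?_) tendsto_id
      induction J with
      | zero => simp
      | succ J ih =>
        have h1 := hn2 J
        have h2 := hn J
        have h3 : J + 1 ≤ (J + 1) * n J := Nat.le_mul_of_pos_right _ (by omega)
        simp only [id]
        omega
    have hnJ' : Tendsto (fun J => C0 * (1 / 2 : ℝ) ^ (n J)) atTop (𝓝 0) := by
      simpa using hnJ.const_mul C0
    filter_upwards [ht.eventually (gt_mem_nhds (show (0 : ℝ) < 1 / 2 by norm_num)),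
      hnJ'.eventually (gt_mem_nhds (show (0 : ℝ) < 1 by norm_num))] with J hJ1 hJ2 w hw
    have hwcb : w ∈ closedBall v (e / 2) := ball_subset_closedBall hw
    have hΦw : ‖Φ w‖ ≤ q := hmax hwcb
    have hFw : F J w = fsum n L (Φ w) - psum n L J (Φ w) := by
      simp only [F]; rw [hVh w (hcb hwcb)]
    rw [hFw]
    have hle := norm_fsum_sub_psum_le hn hmono L hL J hq1.le hΦw
    have hqn : q ^ (n (J + 1)) ≤ (q ^ (J + 1)) ^ (n J) := by
      rw [← pow_mul]
      exact pow_le_pow_of_le_one hq0 hq1.le (hn2 J)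
    calc ‖fsum n L (Φ w) - psum n L J (Φ w)‖ * (B : ℝ) ^ n J
        ≤ (C0 * (q ^ (J + 1)) ^ (n J)) * (B : ℝ) ^ n J := by
          gcongr
          exact hle.trans (by gcongr)
      _ = C0 * (q ^ (J + 1) * B) ^ (n J) := by rw [mul_pow]; ring
      _ ≤ C0 * (1 / 2) ^ (n J) := by gcongr
      _ ≤ 1 := hJ2.le
  have hsmall := small_propagate hW hWc (fun J => le_trans (by norm_num) (hn J)) hF hbd hsmall0
  intro w hw
  by_contra hcon
  push Not at hcon
  obtain ⟨η, hη, hfreq⟩ := hdet (Φ w) hcon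
  obtain ⟨r, hr, hsm⟩ := hsmall w hw
  obtain ⟨J1, hJ1⟩ := eventually_atTop.1 (hsm 4)
  obtain ⟨J2, hJ2⟩ := exists_nat_gt (1 / η)
  obtain ⟨j, hj, hjη⟩ := hfreq (max (J1 + 1) (J2 + 1))
  have hj1 : J1 + 1 ≤ j := (le_max_left _ _).trans hj
  have hj2 : J2 + 1 ≤ j := (le_max_right _ _).trans hj
  obtain ⟨i, rfl⟩ : ∃ i, j = i + 1 := ⟨j - 1, by omega⟩
  have hFsmall : ∀ J ≥ J1, ‖F J w‖ ≤ 1 / 4 := by
    intro J hJ
    have h1 := hJ1 J hJ w (mem_ball_self hr)
    have hN1 : 1 ≤ n J := le_trans (by norm_num) (hn J)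
    have h4 : (4 : ℝ) ≤ ((4 : ℕ) : ℝ) ^ (n J) := by
      calc (4 : ℝ) = (4 : ℝ) ^ 1 := by norm_num
        _ ≤ (4 : ℝ) ^ (n J) := pow_le_pow_right₀ (by norm_num) hN1
        _ = ((4 : ℕ) : ℝ) ^ (n J) := by norm_num
    have h5 : ‖F J w‖ * 4 ≤ ‖F J w‖ * ((4 : ℕ) : ℝ) ^ (n J) := by gcongr
    linarith
  have hterm : term n L (i + 1) (Φ w) = F i w - F (i + 1) w := by
    simp only [F, psum]
    rw [Finset.sum_range_succ _ (i + 1)]
    ring
  have hlt : ‖term n L (i + 1) (Φ w)‖ ≤ 1 / 4 + 1 / 4 := by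
    rw [hterm]
    exact (norm_sub_le _ _).trans (add_le_add (hFsmall i (by omega)) (hFsmall (i + 1) (by omega)))
  have hge : 1 ≤ ‖term n L (i + 1) (Φ w)‖ := by
    unfold term
    rw [norm_mul, norm_pow, norm_wt]
    have hnpos : (0 : ℝ) < (n (i + 1) : ℝ) ^ (i + 1) := by
      have : 0 < n (i + 1) := lt_of_lt_of_le (by norm_num) (hn _)
      positivity
    rw [inv_mul_eq_div, le_div_iff₀ hnpos, one_mul]
    refine (hn3 (i + 1)).trans ?_
    have hη' : 1 / (((i + 1 : ℕ) : ℝ) + 1) ≤ η := by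
      have h1 : 1 / η < ((i + 1 : ℕ) : ℝ) + 1 := by
        have : (J2 : ℝ) ≤ ((i + 1 : ℕ) : ℝ) := by exact_mod_cast (by omega : J2 ≤ i + 1)
        linarith
      rw [div_le_iff₀ (by positivity)]
      rw [div_lt_iff₀ hη] at h1
      linarith
    gcongr
    linarith
  linarith

end Run7.h337
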