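import Mathlib

/-!
Interpolation of sup norms by Cauchy estimates: a holomorphic function that is tiny on a small
circle and not too large on a big circle is tiny on an intermediate disc.
-/

open Metric Set Filter Topology

namespace Run7.h337

/-- Two-circle interpolation. -/
theorem interp {F : ℂ → ℂ} {p μ : ℂ} {ρ r A ε : ℝ} (hr : 0 < r) (hrρ : r ≤ ρ)
    (hF : DiffContOnCl ℂ F (ball p (2 * ρ)))
    (hA : ∀ z ∈ sphere p (2 * ρ), ‖F z‖ ≤ A)
    (hε : ∀ z ∈ sphere p r, ‖F z‖ ≤ ε) (hμ : ‖μ - p‖ ≤ ρ) (K : ℕ) :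
    ‖F μ‖ ≤ ε * K * (ρ / r) ^ K + 2 * A * (1 / 2) ^ K := by
  have hρ : 0 < ρ := lt_of_lt_of_le hr hrρ
  have h2ρ : 0 < 2 * ρ := by linarith
  have hFr : DiffContOnCl ℂ F (ball p r) := hF.mono (ball_subset_ball (by linarith))
  have hq1 : ∀ k, ‖iteratedDeriv k F p‖ ≤ k.factorial * A / (2 * ρ) ^ k := fun k =>
    Complex.norm_iteratedDeriv_le_of_forall_mem_sphere_norm_le k h2ρ hF hA
  have hq2 : ∀ k, ‖iteratedDeriv k F p‖ ≤ k.factorial * ε / r ^ k := fun k =>
    Complex.norm_iteratedDeriv_le_of_forall_mem_sphere_norm_le k hr hFr hε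
  have hA0 : 0 ≤ A := by
    have : p + (2 * ρ : ℝ) ∈ sphere p (2 * ρ) := by
      simp [abs_of_pos hρ]
    exact (norm_nonneg _).trans (hA _ this)
  have hε0 : 0 ≤ ε := by
    have : p + (r : ℝ) ∈ sphere p r := by
      simp [abs_of_pos hr]
    exact (norm_nonneg _).trans (hε _ this)
  have hμb : μ ∈ ball p (2 * ρ) := by
    rw [mem_ball, dist_eq_norm]; linarith
  have hs := Complex.hasSum_taylorSeries_on_ball hF.differentiableOn hμb
  set t : ℕ → ℂ := fun k => ((k.factorial : ℂ))⁻¹ • (μ - p) ^ k • iteratedDeriv k F p with ht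
  have ht1 : ∀ k, ‖t k‖ ≤ A * (1 / 2) ^ k := by
    intro k
    have hfac : (0 : ℝ) < k.factorial := by exact_mod_cast k.factorial_pos
    have h1 : ‖t k‖ = (k.factorial : ℝ)⁻¹ * (‖μ - p‖ ^ k * ‖iteratedDeriv k F p‖) := by
      simp [ht]
    rw [h1]
    calc (k.factorial : ℝ)⁻¹ * (‖μ - p‖ ^ k * ‖iteratedDeriv k F p‖)
        ≤ (k.factorial : ℝ)⁻¹ * (ρ ^ k * (k.factorial * A / (2 * ρ) ^ k)) := by
          gcongr
          exact hq1 k
      _ = A * (1 / 2) ^ k := by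
          rw [mul_pow, div_pow, one_pow]
          field_simp
  have ht2 : ∀ k, ‖t k‖ ≤ ε * (ρ / r) ^ k := by
    intro k
    have hfac : (0 : ℝ) < k.factorial := by exact_mod_cast k.factorial_pos
    have h1 : ‖t k‖ = (k.factorial : ℝ)⁻¹ * (‖μ - p‖ ^ k * ‖iteratedDeriv k F p‖) := by
      simp [ht]
    rw [h1]
    calc (k.factorial : ℝ)⁻¹ * (‖μ - p‖ ^ k * ‖iteratedDeriv k F p‖)
        ≤ (k.factorial : ℝ)⁻¹ * (ρ ^ k * (k.factorial * ε / r ^ k)) := by
          gcongr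
          exact hq2 k
      _ = ε * (ρ / r) ^ k := by
          rw [div_pow]
          field_simp
  have hsum : Summable t := hs.summable
  have hsplit := hsum.sum_add_tsum_nat_add K
  have hFμ : F μ = ∑ k ∈ Finset.range K, t k + ∑' k, t (k + K) := by
    rw [hsplit]; exact hs.tsum_eq.symm
  rw [hFμ]
  have hL : 1 ≤ ρ / r := by rw [le_div_iff₀ hr]; linarith
  have hfirst : ‖∑ k ∈ Finset.range K, t k‖ ≤ ε * K * (ρ / r) ^ K := by
    calc ‖∑ k ∈ Finset.range K, t k‖ ≤ ∑ k ∈ Finset.range K, ‖t k‖ := norm_sum_le _ _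
      _ ≤ ∑ k ∈ Finset.range K, ε * (ρ / r) ^ K := by
          apply Finset.sum_le_sum
          intro k hk
          refine (ht2 k).trans ?_
          have := Finset.mem_range.1 hk
          gcongr
      _ = ε * K * (ρ / r) ^ K := by
          rw [Finset.sum_const, Finset.card_range, nsmul_eq_mul]; ring
  have hgeo : HasSum (fun k : ℕ => A * (1 / 2 : ℝ) ^ (k + K)) (2 * A * (1 / 2) ^ K) := by
    have h := (hasSum_geometric_of_lt_one (r := (1 / 2 : ℝ)) (by norm_num) (by norm_num)).mul_left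
      (A * (1 / 2) ^ K)
    have e1 : (fun k : ℕ => A * (1 / 2 : ℝ) ^ (k + K)) =
        fun k : ℕ => A * (1 / 2) ^ K * (1 / 2) ^ k := by
      funext k; rw [pow_add]; ring
    have e2 : 2 * A * (1 / 2 : ℝ) ^ K = A * (1 / 2) ^ K * (1 - 1 / 2)⁻¹ := by
      have : (1 - 1 / 2 : ℝ)⁻¹ = 2 := by norm_num
      rw [this]; ring
    rw [e1, e2]
    exact h
  have hsecond : ‖∑' k, t (k + K)‖ ≤ 2 * A * (1 / 2) ^ K :=
    tsum_of_norm_bounded hgeo (fun k => ht1 (k + K))
  exact (norm_add_le _ _).trans (add_le_add hfirst hsecond)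

end Run7.h337
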